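import Mathlib
import Pool.Agent.H12.RegSeq

set_option autoImplicit false

namespace Pool.Agent.Results.MP_5ec752_co.TypesDiffer

open Pool.Agent.H12.RegSeq

theorem regB7 : RegB [24, 9, 4, 2, 1, 1, 7] :=
  .front [9, 4, 2, 1, 1, 7] 0 6 (.front [4, 2, 1, 1, 7] 2 3 (.back [4, 2, 1, 1] 0 3
    (.front [2, 1, 1] 0 3 (.front [1, 1] 0 2 .base
    (by decide) (by decide)) (by decide) (by decide)) (by decide) (by decide))
    (by decide) (by decide)) (by decide) (by decide)

theorem regA8 : RegA [24, 6, 4, 2, 1, 1, 1, 9] :=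
  .front [6, 4, 2, 1, 1, 1, 9] 7 (.back [6, 4, 2, 1, 1, 1] 1 (.front [4, 2, 1, 1, 1] 2
    (.front [2, 1, 1, 1] 3 (.front [1, 1, 1] 2 (.front [1, 1] 1 .base
    (by decide) (by decide)) (by decide) (by decide)) (by decide) (by decide))
    (by decide) (by decide)) (by decide)) (by decide) (by decide)

theorem a_pair : a [9, 24] = 8 :=
  a_eq (N := 5) (by decide) (by decide +kernel) regA8 rfl
    ⟨[24, 9], by decide, by decide⟩

theorem b_pair : b [9, 24] ≤ 7 := by
  have hm : 7 ∈ {n | ∃ d, RegB d ∧ d.length = n ∧ Has d [9, 24]} :=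
    ⟨_, regB7, rfl, [24, 9], by decide, by decide⟩
  exact Nat.sInf_le hm

theorem result : ¬ ∀ k₁ k₂ : ℕ, 0 < k₁ → 0 < k₂ → a [k₁, k₂] = b [k₁, k₂] := by
  intro h
  have h1 := h 9 24 (by decide) (by decide)
  have h2 := a_pair
  have h3 := b_pair
  omega

end Pool.Agent.Results.MP_5ec752_co.TypesDiffer
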